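import Mathlib
import Pool.Agent.Y990.SH.Stm

set_option autoImplicit false

namespace Pool.Agent.Y975.SH

open Pool.Agent.Y990.SH

/-- A subset of the grid with more than `2 g` points contains a corner. -/
lemma corner {g : ℕ} (Q : Finset (Fin g × Fin g)) (h : 2 * g < Q.card) :
    ∃ a₀ a₁ b₀ b₁ : Fin g, a₀ < a₁ ∧ b₀ < b₁ ∧ Cor a₀ a₁ b₀ b₁ ⊆ Q := by
  classical
  by_contra hne
  set Q1 := Q.filter (fun p => ∀ a₁, p.1 < a₁ → (a₁, p.2) ∉ Q) with hQ1
  set Q2 := Q.filter (fun p => ∀ b₁, p.2 < b₁ → (p.1, b₁) ∉ Q) with hQ2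
  have h1 : Q1.card ≤ g := by
    have : Q1.card ≤ (Finset.univ : Finset (Fin g)).card := by
      apply Finset.card_le_card_of_injOn (fun p => p.2) (fun _ _ => Finset.mem_coe.2 (Finset.mem_univ _))
      rintro ⟨a, b⟩ hp ⟨a', b'⟩ hp' hb
      simp only [hQ1, Finset.coe_filter, Set.mem_ofPred_eq] at hp hp' hb
      subst hb
      rcases lt_trichotomy a a' with hlt | rfl | hlt
      · exact absurd hp'.1 (hp.2 a' hlt)
      · rfl
      · exact absurd hp.1 (hp'.2 a hlt)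
    simpa using this
  have h2 : Q2.card ≤ g := by
    have : Q2.card ≤ (Finset.univ : Finset (Fin g)).card := by
      apply Finset.card_le_card_of_injOn (fun p => p.1) (fun _ _ => Finset.mem_coe.2 (Finset.mem_univ _))
      rintro ⟨a, b⟩ hp ⟨a', b'⟩ hp' hb
      simp only [hQ2, Finset.coe_filter, Set.mem_ofPred_eq] at hp hp' hb
      subst hb
      rcases lt_trichotomy b b' with hlt | rfl | hlt
      · exact absurd hp'.1 (hp.2 b' hlt)
      · rfl
      · exact absurd hp.1 (hp'.2 b hlt)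
    simpa using this
  have h3 : Q ⊆ Q1 ∪ Q2 := by
    rintro ⟨a, b⟩ hp
    by_contra hno
    rw [Finset.mem_union, not_or] at hno
    simp only [hQ1, hQ2, Finset.mem_filter, not_and, not_forall, not_not] at hno
    obtain ⟨⟨a₁, ha, haQ⟩, ⟨b₁, hb, hbQ⟩⟩ := And.intro (hno.1 hp) (hno.2 hp)
    refine hne ⟨a, a₁, b, b₁, ha, hb, ?_⟩
    intro q hq
    simp only [Cor, Finset.mem_insert, Finset.mem_singleton] at hq
    rcases hq with rfl | rfl | rfl
    · exact hp
    · exact haQ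
    · exact hbQ
  have h4 := Finset.card_le_card h3
  have h5 := Finset.card_union_le Q1 Q2
  omega

/-- Averaging over an abstract finite set: some corner is related with large total weight. -/
lemma avg_abs {g : ℕ} {P : Type} [Fintype P] (wt : P → ℝ) (R : Fin g × Fin g → P → Prop)
    (S : Finset (Fin g × Fin g)) (h M K : ℝ) (hg : 1 ≤ g) (hwt : ∀ p, 0 ≤ wt p)
    (hM : ∑ p, wt p = M)
    (hR : ∀ s ∈ S, h ≤ ∑ p, open scoped Classical in if R s p then wt p else 0) (hK : 0 < K)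
    (hle : (g : ℝ) ^ 2 * K ≤ S.card * h - 2 * g * M) :
    ∃ (a₀ a₁ b₀ b₁ : Fin g), a₀ < a₁ ∧ b₀ < b₁ ∧ Cor a₀ a₁ b₀ b₁ ⊆ S ∧
      K / g ^ 4 ≤ ∑ p, open scoped Classical in
        if ∀ s ∈ Cor a₀ a₁ b₀ b₁, R s p then wt p else 0 := by
  classical
  have hg0 : (0 : ℝ) < g := by exact_mod_cast hg
  obtain ⟨G, hG⟩ : ∃ G : Fin g × Fin g × Fin g × Fin g → P → ℝ, ∀ c p, G c p =
      if ∀ s ∈ Cor c.1 c.2.1 c.2.2.1 c.2.2.2, R s p then wt p else 0 := ⟨_, fun _ _ => rfl⟩
  have hGnn : ∀ c p, 0 ≤ G c p := by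
    intro c p
    rw [hG]
    split_ifs
    · exact hwt p
    · exact le_rfl
  obtain ⟨C, hC⟩ : ∃ C : Finset (Fin g × Fin g × Fin g × Fin g), ∀ c, c ∈ C ↔
    c.1 < c.2.1 ∧ c.2.2.1 < c.2.2.2 ∧ Cor c.1 c.2.1 c.2.2.1 c.2.2.2 ⊆ S :=
    ⟨Finset.univ.filter (fun c => c.1 < c.2.1 ∧ c.2.2.1 < c.2.2.2 ∧
      Cor c.1 c.2.1 c.2.2.1 c.2.2.2 ⊆ S), fun c => by simp⟩
  have hCcard : (C.card : ℝ) ≤ (g : ℝ) ^ 4 := by
    have : C.card ≤ g * (g * (g * g)) := by
      refine (Finset.card_le_univ C).trans ?_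
      simp
    calc (C.card : ℝ) ≤ ((g * (g * (g * g)) : ℕ) : ℝ) := by exact_mod_cast this
      _ = (g : ℝ) ^ 4 := by push_cast; ring
  have h2 : ∀ p, ∑ s ∈ S, (if R s p then wt p else 0) ≤
      2 * g * wt p + (g : ℝ) ^ 2 * ∑ c ∈ C, G c p := by
    intro p
    have hnn := hwt p
    have hsum : ∑ s ∈ S, (if R s p then wt p else 0) =
        (S.filter (fun s => R s p)).card * wt p := by
      rw [← Finset.sum_filter, Finset.sum_const, nsmul_eq_mul]
    rw [hsum]
    obtain ⟨Q, hQ⟩ : ∃ Q, Q = S.filter (fun s => R s p) := ⟨_, rfl⟩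
    rw [← hQ]
    have hpos : 0 ≤ ∑ c ∈ C, G c p := Finset.sum_nonneg fun c _ => hGnn c p
    by_cases hcard : 2 * g < Q.card
    · obtain ⟨a₀, a₁, b₀, b₁, ha, hb, hsub⟩ := corner Q hcard
      have hcC : (a₀, a₁, b₀, b₁) ∈ C := by
        rw [hC]
        refine ⟨ha, hb, hsub.trans ?_⟩
        rw [hQ]
        exact Finset.filter_subset _ _
      have hle : wt p ≤ ∑ c ∈ C, G c p := by
        have hall : ∀ s ∈ Cor a₀ a₁ b₀ b₁, R s p := by
          intro s hs
          have := hsub hs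
          rw [hQ] at this
          exact (Finset.mem_filter.1 this).2
        have e : G (a₀, a₁, b₀, b₁) p = wt p := by
          rw [hG]
          exact if_pos hall
        rw [← e]
        exact Finset.single_le_sum (f := fun c => G c p) (fun c _ => hGnn c p) hcC
      have hQg : (Q.card : ℝ) ≤ (g : ℝ) ^ 2 := by
        have : Q.card ≤ g * g := by
          refine (Finset.card_le_univ Q).trans ?_
          simp
        calc (Q.card : ℝ) ≤ ((g * g : ℕ) : ℝ) := by exact_mod_cast this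
          _ = (g : ℝ) ^ 2 := by push_cast; ring
      calc (Q.card : ℝ) * wt p ≤ (g : ℝ) ^ 2 * wt p := mul_le_mul_of_nonneg_right hQg hnn
        _ ≤ (g : ℝ) ^ 2 * ∑ c ∈ C, G c p := mul_le_mul_of_nonneg_left hle (by positivity)
        _ ≤ _ := le_add_of_nonneg_left (by positivity)
    · have hQg : (Q.card : ℝ) ≤ 2 * g := by
        have : Q.card ≤ 2 * g := not_lt.1 hcard
        exact_mod_cast this
      calc (Q.card : ℝ) * wt p ≤ 2 * g * wt p := mul_le_mul_of_nonneg_right hQg hnn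
        _ ≤ _ := le_add_of_nonneg_right (by positivity)
  have h3 : (S.card : ℝ) * h ≤ 2 * g * M + (g : ℝ) ^ 2 * ∑ c ∈ C, ∑ p, G c p := by
    calc (S.card : ℝ) * h = ∑ s ∈ S, h := by
          rw [Finset.sum_const, nsmul_eq_mul]
      _ ≤ ∑ s ∈ S, ∑ p, (if R s p then wt p else 0) := Finset.sum_le_sum hR
      _ = ∑ p, ∑ s ∈ S, (if R s p then wt p else 0) := Finset.sum_comm
      _ ≤ ∑ p, (2 * g * wt p + (g : ℝ) ^ 2 * ∑ c ∈ C, G c p) :=
          Finset.sum_le_sum fun p _ => h2 p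
      _ = _ := by
          rw [Finset.sum_add_distrib, ← Finset.mul_sum, ← Finset.mul_sum, hM, Finset.sum_comm]
  by_contra hno
  have hlt : ∀ c ∈ C, ∑ p, G c p < K / g ^ 4 := by
    intro c hc
    obtain ⟨ha, hb, hsub⟩ := (hC c).1 hc
    by_contra hcon
    refine hno ⟨c.1, c.2.1, c.2.2.1, c.2.2.2, ha, hb, hsub, ?_⟩
    have e : ∑ p, G c p = ∑ p, if ∀ s ∈ Cor c.1 c.2.1 c.2.2.1 c.2.2.2, R s p then wt p else 0 :=
      Finset.sum_congr rfl fun p _ => hG c p
    rw [← e]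
    exact not_lt.1 hcon
  have hK4 : (0 : ℝ) < K / g ^ 4 := by positivity
  have h4 : (g : ℝ) ^ 2 * K ≤ (g : ℝ) ^ 2 * ∑ c ∈ C, ∑ p, G c p := by linarith
  have h5 : K ≤ ∑ c ∈ C, ∑ p, G c p := le_of_mul_le_mul_left h4 (by positivity)
  rcases C.eq_empty_or_nonempty with hemp | hnem
  · rw [hemp, Finset.sum_empty] at h5
    linarith
  · have h6 : ∑ c ∈ C, ∑ p, G c p < ∑ c ∈ C, K / (g : ℝ) ^ 4 := Finset.sum_lt_sum_of_nonempty hnem hlt
    rw [Finset.sum_const, nsmul_eq_mul] at h6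
    have h7 : (C.card : ℝ) * (K / (g : ℝ) ^ 4) ≤ (g : ℝ) ^ 4 * (K / (g : ℝ) ^ 4) :=
      mul_le_mul_of_nonneg_right hCcard hK4.le
    rw [mul_div_cancel₀ _ (by positivity)] at h7
    linarith

section

variable {A g m J : ℕ} {X : Type} [Fintype X]

open scoped Classical in
/-- the sum of the weights of the bad pairs over the references -/
lemma sum_be (μ : X → ℝ) (Rl : Tg g m → X → Fin A → Fin J → X → Fin A → Prop) (ρ : ℝ)
    (hA : 1 ≤ A) (hJ : 1 ≤ J) (hμ : ∀ x, 0 ≤ μ x) (hμ1 : ∑ x, μ x = 1) (hρ : 0 < ρ)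
    (t t' : Tg g m) :
    ∑ l : Fin J, ∑ z : X, ∑ b : Fin A, μ z * be μ Rl ρ t t' l z b ≤ (J : ℝ) * A ^ 3 * ρ := by
  have hJ0 : (0 : ℝ) < J := by exact_mod_cast hJ
  have hA0 : (0 : ℝ) < A := by exact_mod_cast hA
  have key : ∑ l : Fin J, ∑ z : X, ∑ b : Fin A, μ z * be μ Rl ρ t t' l z b =
      ∑ x : X, ∑ y : X, ∑ a : Fin A, ∑ a' : Fin A, μ x * μ y *
        (∑ l : Fin J, ∑ z : X, ∑ b : Fin A, if Rl t x a l z b ∧ Rl t' y a' l z b ∧
          ov μ Rl t x a t' y a' < ρ then μ z else 0) := by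
    have e1 : ∀ (l : Fin J) (z : X) (b : Fin A), μ z * be μ Rl ρ t t' l z b =
        ∑ q : X × X × Fin A × Fin A, μ q.1 * μ q.2.1 *
          (if Rl t q.1 q.2.2.1 l z b ∧ Rl t' q.2.1 q.2.2.2 l z b ∧
            ov μ Rl t q.1 q.2.2.1 t' q.2.1 q.2.2.2 < ρ then μ z else 0) := by
      intro l z b
      simp only [be, Fintype.sum_prod_type, Finset.mul_sum]
      refine Finset.sum_congr rfl fun x _ => Finset.sum_congr rfl fun y _ =>
        Finset.sum_congr rfl fun a _ => Finset.sum_congr rfl fun a' _ => ?_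
      split_ifs <;> ring
    have e2 : ∑ l : Fin J, ∑ z : X, ∑ b : Fin A, μ z * be μ Rl ρ t t' l z b =
        ∑ r : Fin J × X × Fin A, ∑ q : X × X × Fin A × Fin A, μ q.1 * μ q.2.1 *
          (if Rl t q.1 q.2.2.1 r.1 r.2.1 r.2.2 ∧ Rl t' q.2.1 q.2.2.2 r.1 r.2.1 r.2.2 ∧
            ov μ Rl t q.1 q.2.2.1 t' q.2.1 q.2.2.2 < ρ then μ r.2.1 else 0) := by
      rw [Fintype.sum_prod_type]
      refine Finset.sum_congr rfl fun l _ => ?_
      rw [Fintype.sum_prod_type]
      exact Finset.sum_congr rfl fun z _ => Finset.sum_congr rfl fun b _ => e1 l z b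
    rw [e2, Finset.sum_comm]
    simp only [Fintype.sum_prod_type, Finset.mul_sum]
  rw [key]
  have each : ∀ (x y : X) (a a' : Fin A), μ x * μ y *
        (∑ l : Fin J, ∑ z : X, ∑ b : Fin A, if Rl t x a l z b ∧ Rl t' y a' l z b ∧
          ov μ Rl t x a t' y a' < ρ then μ z else 0) ≤ μ x * μ y * (J * A * ρ) := by
    intro x y a a'
    apply mul_le_mul_of_nonneg_left _ (mul_nonneg (hμ x) (hμ y))
    by_cases hov : ov μ Rl t x a t' y a' < ρ
    · have : (∑ l : Fin J, ∑ z : X, ∑ b : Fin A, if Rl t x a l z b ∧ Rl t' y a' l z b ∧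
          ov μ Rl t x a t' y a' < ρ then μ z else 0) = (J * A) * ov μ Rl t x a t' y a' := by
        have e : ov μ Rl t x a t' y a' * (J * A) = ∑ l : Fin J, ∑ z : X, ∑ b : Fin A,
            if Rl t x a l z b ∧ Rl t' y a' l z b then μ z else 0 := by
          unfold ov
          exact div_mul_cancel₀ _ (by positivity)
        rw [mul_comm, e]
        simp only [hov, and_true]
      rw [this]
      exact mul_le_mul_of_nonneg_left hov.le (by positivity)
    · simp only [hov, and_false, if_false, Finset.sum_const_zero]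
      positivity
  calc _ ≤ ∑ x : X, ∑ y : X, ∑ _a : Fin A, ∑ _a' : Fin A, μ x * μ y * (J * A * ρ) :=
        Finset.sum_le_sum fun x _ => Finset.sum_le_sum fun y _ => Finset.sum_le_sum fun a _ =>
          Finset.sum_le_sum fun a' _ => each x y a a'
    _ = (∑ x, μ x) * (∑ y, μ y) * ((J : ℝ) * A ^ 3 * ρ) := by
        simp only [Finset.sum_const, Finset.card_univ, Fintype.card_fin, nsmul_eq_mul]
        rw [Finset.sum_mul_sum, Finset.sum_mul]
        refine Finset.sum_congr rfl fun x _ => ?_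
        rw [Finset.sum_mul]
        refine Finset.sum_congr rfl fun y _ => ?_
        ring
    _ = _ := by rw [hμ1]; ring

open scoped Classical in
lemma be_nonneg (μ : X → ℝ) (Rl : Tg g m → X → Fin A → Fin J → X → Fin A → Prop) (ρ : ℝ)
    (hμ : ∀ x, 0 ≤ μ x) (t t' : Tg g m) (l : Fin J) (z : X) (b : Fin A) :
    0 ≤ be μ Rl ρ t t' l z b := by
  unfold be
  refine Finset.sum_nonneg fun x _ => Finset.sum_nonneg fun y _ => Finset.sum_nonneg fun a _ =>
    Finset.sum_nonneg fun a' _ => ?_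
  split_ifs
  · exact mul_nonneg (hμ x) (hμ y)
  · exact le_rfl


end

/-- SEL -/
theorem sel : Pool.Agent.Y990.SH.S_sel := by
  classical
  intro A g m J α ρ X _ μ S Rl hA hg hm hJ hα hbig hρ hμ hμ1 hS hR
  have hJ0 : (0 : ℝ) < J := by exact_mod_cast hJ
  have hA0 : (0 : ℝ) < A := by exact_mod_cast hA
  have hm0 : (0 : ℝ) < m := by exact_mod_cast hm
  have hg0 : (0 : ℝ) < g := by exact_mod_cast hg
  -- the weights of pairs
  have hmass : ∑ p : (Fin J × X × Fin A) × (Fin m × X × Fin A), μ p.2.2.1 * μ p.1.2.1 =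
      (m : ℝ) * J * A ^ 2 := by
    have e1 : ∑ v : Fin m × X × Fin A, μ v.2.1 = (m : ℝ) * A := by
      simp only [Fintype.sum_prod_type, Finset.sum_const, Finset.card_univ, Fintype.card_fin,
        nsmul_eq_mul]
      rw [← Finset.mul_sum, hμ1, mul_one]
    have e2 : ∑ y : Fin J × X × Fin A, μ y.2.1 = (J : ℝ) * A := by
      simp only [Fintype.sum_prod_type, Finset.sum_const, Finset.card_univ, Fintype.card_fin,
        nsmul_eq_mul]
      rw [← Finset.mul_sum, hμ1, mul_one]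
    rw [Fintype.sum_prod_type]
    calc _ = ∑ y : Fin J × X × Fin A, ∑ v : Fin m × X × Fin A, μ y.2.1 * μ v.2.1 :=
          Finset.sum_congr rfl fun y _ => Finset.sum_congr rfl fun v _ => mul_comm _ _
      _ = _ := by rw [← Finset.sum_mul_sum, e1, e2]; ring
  have h1 : ∀ s ∈ S, (m : ℝ) * J / 2 ≤ ∑ p : (Fin J × X × Fin A) × (Fin m × X × Fin A),
      if Rl (s, p.2.1) p.2.2.1 p.2.2.2 p.1.1 p.1.2.1 p.1.2.2 then μ p.2.2.1 * μ p.1.2.1 else 0 := by
    intro s hs
    have e : ∑ p : (Fin J × X × Fin A) × (Fin m × X × Fin A),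
        (if Rl (s, p.2.1) p.2.2.1 p.2.2.2 p.1.1 p.1.2.1 p.1.2.2 then μ p.2.2.1 * μ p.1.2.1
          else 0) =
        ∑ i : Fin m, ∑ l : Fin J, ∑ x, ∑ z, ∑ a : Fin A, ∑ b : Fin A,
          if Rl (s, i) x a l z b then μ x * μ z else 0 := by
      rw [Fintype.sum_prod_type, Finset.sum_comm, Fintype.sum_prod_type]
      refine Finset.sum_congr rfl fun i _ => ?_
      rw [Finset.sum_comm, Fintype.sum_prod_type]
      refine Finset.sum_congr rfl fun l _ => ?_
      rw [Finset.sum_comm, Fintype.sum_prod_type]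
      refine Finset.sum_congr rfl fun x _ => ?_
      rw [Finset.sum_comm, Fintype.sum_prod_type]
      refine Finset.sum_congr rfl fun z _ => ?_
      rw [Finset.sum_comm]
    rw [e]
    calc (m : ℝ) * J / 2 = ∑ i : Fin m, ∑ l : Fin J, (1 / 2 : ℝ) := by
          simp only [Finset.sum_const, Finset.card_univ, Fintype.card_fin, nsmul_eq_mul]
          ring
      _ ≤ _ := Finset.sum_le_sum fun i _ => Finset.sum_le_sum fun l _ => ?_
    refine (hR s hs i l).trans (Finset.sum_le_sum fun x _ => Finset.sum_le_sum fun z _ => ?_)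
    have hnn : 0 ≤ μ x * μ z := mul_nonneg (hμ x) (hμ z)
    have hterm : ∀ a b, 0 ≤ (if Rl (s, i) x a l z b then μ x * μ z else 0) := by
      intro a b; split_ifs <;> simp [hnn]
    by_cases hex : ∃ a b, Rl (s, i) x a l z b
    · rw [if_pos hex]
      obtain ⟨a, b, hab⟩ := hex
      calc μ x * μ z = if Rl (s, i) x a l z b then μ x * μ z else 0 := by rw [if_pos hab]
        _ ≤ ∑ b : Fin A, if Rl (s, i) x a l z b then μ x * μ z else 0 :=
            Finset.single_le_sum (f := fun b => if Rl (s, i) x a l z b then μ x * μ z else 0)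
              (fun b _ => hterm a b) (Finset.mem_univ b)
        _ ≤ _ := Finset.single_le_sum
              (f := fun a => ∑ b : Fin A, if Rl (s, i) x a l z b then μ x * μ z else 0)
              (fun a _ => Finset.sum_nonneg fun b _ => hterm a b) (Finset.mem_univ a)
    · rw [if_neg hex]
      exact Finset.sum_nonneg fun a _ => Finset.sum_nonneg fun b _ => hterm a b
  obtain ⟨a₀, a₁, b₀, b₁, ha, hb, hsub, hcor⟩ := avg_abs
    (P := (Fin J × X × Fin A) × (Fin m × X × Fin A))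
    (fun p => μ p.2.2.1 * μ p.1.2.1)
    (fun s p => Rl (s, p.2.1) p.2.2.1 p.2.2.2 p.1.1 p.1.2.1 p.1.2.2) S (m * J / 2)
    (m * J * A ^ 2) (m * J * α / 4) hg (fun p => mul_nonneg (hμ _) (hμ _)) hmass h1
    (by positivity) (by
      have e1 : α * (g : ℝ) ^ 2 * (m * J / 2) ≤ S.card * (m * J / 2) :=
        mul_le_mul_of_nonneg_right hS (by positivity)
      have e2 : 8 * (A : ℝ) ^ 2 * (g * (m * J / 4)) ≤ α * g * (g * (m * J / 4)) :=
        mul_le_mul_of_nonneg_right hbig (by positivity)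
      nlinarith)
  refine ⟨a₀, a₁, b₀, b₁, ?_⟩
  obtain ⟨Cr, hCr⟩ : ∃ Cr, Cr = Cor a₀ a₁ b₀ b₁ := ⟨_, rfl⟩
  rw [← hCr] at hcor hsub ⊢
  have hCard : (Cr.card : ℝ) ≤ 3 := by
    have : Cr.card ≤ 3 := by
      rw [hCr]
      exact Finset.card_le_three
    exact_mod_cast this
  -- the functions of the reference
  obtain ⟨O, hO⟩ : ∃ O : Fin J × X × Fin A → ℝ, ∀ y, O y = ∑ v : Fin m × X × Fin A,
      if ∀ s ∈ Cr, Rl (s, v.1) v.2.1 v.2.2 y.1 y.2.1 y.2.2 then μ v.2.1 else 0 :=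
    ⟨_, fun _ => rfl⟩
  obtain ⟨B, hB⟩ : ∃ B : Fin J × X × Fin A → ℝ, ∀ y, B y = ∑ s ∈ Cr, ∑ s' ∈ Cr,
      ∑ i : Fin m, ∑ i' : Fin m, be μ Rl ρ (s, i) (s', i') y.1 y.2.1 y.2.2 :=
    ⟨_, fun _ => rfl⟩
  have hOsum : (m : ℝ) * J * α / 4 / g ^ 4 ≤ ∑ y : Fin J × X × Fin A, μ y.2.1 * O y := by
    refine hcor.trans (le_of_eq ?_)
    rw [Fintype.sum_prod_type]
    refine Finset.sum_congr rfl fun y _ => ?_
    rw [hO, Finset.mul_sum]
    refine Finset.sum_congr rfl fun v _ => ?_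
    rw [mul_ite, mul_zero, mul_comm]
  have hBsum : ∑ y : Fin J × X × Fin A, μ y.2.1 * B y ≤ 9 * m ^ 2 * (J * A ^ 3 * ρ) := by
    have e1 : ∑ y : Fin J × X × Fin A, μ y.2.1 * B y = ∑ s ∈ Cr, ∑ s' ∈ Cr,
        ∑ i : Fin m, ∑ i' : Fin m, ∑ l : Fin J, ∑ z : X, ∑ b : Fin A,
          μ z * be μ Rl ρ (s, i) (s', i') l z b := by
      simp only [hB, Finset.mul_sum]
      rw [Finset.sum_comm]
      refine Finset.sum_congr rfl fun s _ => ?_
      rw [Finset.sum_comm]
      refine Finset.sum_congr rfl fun s' _ => ?_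
      rw [Finset.sum_comm]
      refine Finset.sum_congr rfl fun i _ => ?_
      rw [Finset.sum_comm]
      refine Finset.sum_congr rfl fun i' _ => ?_
      simp only [Fintype.sum_prod_type]
    rw [e1]
    have hT : (0 : ℝ) ≤ J * A ^ 3 * ρ := by positivity
    calc _ ≤ ∑ s ∈ Cr, ∑ s' ∈ Cr, ∑ i : Fin m, ∑ i' : Fin m, ((J : ℝ) * A ^ 3 * ρ) :=
          Finset.sum_le_sum fun s _ => Finset.sum_le_sum fun s' _ => Finset.sum_le_sum fun i _ =>
            Finset.sum_le_sum fun i' _ => sum_be μ Rl ρ hA hJ hμ hμ1 hρ (s, i) (s', i')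
      _ = (Cr.card : ℝ) * (Cr.card * (m * (m * ((J : ℝ) * A ^ 3 * ρ)))) := by
          simp only [Finset.sum_const, Finset.card_univ, Fintype.card_fin, nsmul_eq_mul]
      _ ≤ 3 * (3 * (m * (m * ((J : ℝ) * A ^ 3 * ρ)))) := by
          gcongr
      _ = _ := by ring
  have hBnn : ∀ y, 0 ≤ B y := by
    intro y
    rw [hB]
    exact Finset.sum_nonneg fun s _ => Finset.sum_nonneg fun s' _ => Finset.sum_nonneg fun i _ =>
      Finset.sum_nonneg fun i' _ => be_nonneg μ Rl ρ hμ _ _ _ _ _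
  have hOle : ∀ y, O y ≤ m * A := by
    intro y
    rw [hO]
    calc _ ≤ ∑ v : Fin m × X × Fin A, μ v.2.1 := Finset.sum_le_sum fun v _ => by
            split_ifs
            · exact le_rfl
            · exact hμ _
      _ = (m : ℝ) * A := by
          simp only [Fintype.sum_prod_type, Finset.sum_const, Finset.card_univ, Fintype.card_fin,
            nsmul_eq_mul]
          rw [← Finset.mul_sum, hμ1, mul_one]
  -- the choice
  obtain ⟨K, hK⟩ : ∃ K : ℝ, K = α / (72 * g ^ 4 * m * A ^ 3 * ρ) := ⟨_, rfl⟩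
  have hK0 : 0 < K := by rw [hK]; positivity
  have : Nonempty X := by
    by_contra hne
    rw [not_nonempty_iff] at hne
    simp at hμ1
  have : Nonempty (Fin J) := ⟨⟨0, hJ⟩⟩
  have : Nonempty (Fin A) := ⟨⟨0, hA⟩⟩
  obtain ⟨y, hy⟩ := Finite.exists_max (fun y : Fin J × X × Fin A => O y - K * B y)
  have hy1 : (m : ℝ) * α / (8 * A * g ^ 4) ≤ O y - K * B y := by
    have e1 : ∑ y : Fin J × X × Fin A, μ y.2.1 = (J : ℝ) * A := by
      simp only [Fintype.sum_prod_type, Finset.sum_const, Finset.card_univ, Fintype.card_fin,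
        nsmul_eq_mul]
      rw [← Finset.mul_sum, hμ1, mul_one]
    have e2 : ∑ y : Fin J × X × Fin A, μ y.2.1 * (O y - K * B y) ≤ (J * A) * (O y - K * B y) := by
      rw [← e1, Finset.sum_mul]
      exact Finset.sum_le_sum fun y' _ => mul_le_mul_of_nonneg_left (hy y') (hμ _)
    have e3 : ∑ y : Fin J × X × Fin A, μ y.2.1 * (O y - K * B y) =
        ∑ y : Fin J × X × Fin A, μ y.2.1 * O y - K * ∑ y : Fin J × X × Fin A, μ y.2.1 * B y := by
      rw [Finset.mul_sum, ← Finset.sum_sub_distrib]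
      exact Finset.sum_congr rfl fun y' _ => by ring
    have e4 : K * (9 * m ^ 2 * (J * A ^ 3 * ρ)) = (m : ℝ) * J * α / (8 * g ^ 4) := by
      rw [hK]
      field_simp
      ring
    have e5 : K * ∑ y : Fin J × X × Fin A, μ y.2.1 * B y ≤ (m : ℝ) * J * α / (8 * g ^ 4) := by
      rw [← e4]
      exact mul_le_mul_of_nonneg_left hBsum hK0.le
    have e6 : (m : ℝ) * J * α / 4 / g ^ 4 - (m : ℝ) * J * α / (8 * g ^ 4) =
        (J * A) * ((m : ℝ) * α / (8 * A * g ^ 4)) := by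
      field_simp
      ring
    have e7 : (J * A) * ((m : ℝ) * α / (8 * A * g ^ 4)) ≤ (J * A) * (O y - K * B y) := by
      rw [← e6]
      linarith
    exact le_of_mul_le_mul_left e7 (by positivity)
  have hy2 : (m : ℝ) * α / (8 * A * g ^ 4) ≤ O y := by
    have := mul_nonneg hK0.le (hBnn y)
    linarith
  have hy3 : B y ≤ 72 * A ^ 4 * g ^ 4 * m ^ 2 * ρ / α := by
    have e1 : K * B y ≤ m * A := by
      have e2 : (0 : ℝ) ≤ (m : ℝ) * α / (8 * A * g ^ 4) := by positivity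
      have := hOle y
      linarith
    have e3 : (m : ℝ) * A = K * (72 * A ^ 4 * g ^ 4 * m ^ 2 * ρ / α) := by
      rw [hK]
      field_simp
    rw [e3] at e1
    exact le_of_mul_le_mul_left e1 hK0
  refine ⟨y.1, y.2.1, y.2.2, ha, hb, hsub, ?_, ?_⟩
  · have e1 : O y ≤ A * ∑ i : Fin m, ∑ x,
        (if ∃ a, ∀ s ∈ Cr, Rl (s, i) x a y.1 y.2.1 y.2.2 then μ x else 0) := by
      rw [hO, Fintype.sum_prod_type, Finset.mul_sum]
      refine Finset.sum_le_sum fun i _ => ?_
      rw [Fintype.sum_prod_type, Finset.mul_sum]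
      refine Finset.sum_le_sum fun x _ => ?_
      by_cases hex : ∃ a, ∀ s ∈ Cr, Rl (s, i) x a y.1 y.2.1 y.2.2
      · rw [if_pos hex]
        calc _ ≤ ∑ _a : Fin A, μ x := Finset.sum_le_sum fun a _ => by
                dsimp only
                split_ifs
                · exact le_rfl
                · exact hμ _
          _ = A * μ x := by simp
      · rw [if_neg hex, mul_zero]
        refine le_of_eq (Finset.sum_eq_zero fun a _ => ?_)
        dsimp only
        rw [if_neg]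
        exact fun h => hex ⟨a, h⟩
    have e2 : (A : ℝ) * (α / (8 * A ^ 2 * g ^ 4) * m) = (m : ℝ) * α / (8 * A * g ^ 4) := by
      field_simp
    have e3 : (A : ℝ) * (α / (8 * A ^ 2 * g ^ 4) * m) ≤ A * ∑ i : Fin m, ∑ x,
        (if ∃ a, ∀ s ∈ Cr, Rl (s, i) x a y.1 y.2.1 y.2.2 then μ x else 0) := by
      rw [e2]
      exact hy2.trans e1
    exact le_of_mul_le_mul_left e3 hA0
  · rw [← hB]
    exact hy3

end Pool.Agent.Y975.SH
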